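import Mathlib
import Pool.Agent.Results.MP_d695ac_nt.MersenneClassification

set_option autoImplicit false

namespace Pool.Agent.Results.MP_24a6f7_nt.FixedExponent

open Pool.Agent.Results.MP_d695ac_nt.MersenneClassification

/-- The 2-near perfect numbers of the form `2^k p^m` with `k ≥ 1` and `p` an odd prime, for a
fixed exponent `m`. -/
def B (m : ℕ) : Set ℕ :=
  {n | TwoNearPerfect n ∧ ∃ k p : ℕ, 1 ≤ k ∧ p.Prime ∧ p ≠ 2 ∧ n = 2 ^ k * p ^ m}

/-- two odd primes with the same `2^k p^m` -/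
lemma repr_unique {k k' m m' p p' : ℕ} (hp : p.Prime) (hp2 : p ≠ 2) (hp' : p'.Prime)
    (hp2' : p' ≠ 2) (hm : m ≠ 0) (h : 2 ^ k * p ^ m = 2 ^ k' * p' ^ m') :
    p = p' ∧ m = m' := by
  have h1 : p ∣ 2 ^ k' * p' ^ m' := by
    rw [← h]; exact Dvd.dvd.mul_left (dvd_pow_self p hm) _
  have hpp : p = p' := by
    rcases (hp.dvd_mul).1 h1 with h2 | h2
    · exact absurd ((Nat.prime_dvd_prime_iff_eq hp Nat.prime_two).1 (hp.dvd_of_dvd_pow h2)) hp2
    · exact (Nat.prime_dvd_prime_iff_eq hp hp').1 (hp.dvd_of_dvd_pow h2)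
  subst hpp
  refine ⟨rfl, ?_⟩
  have e : (2 ^ k * p ^ m).factorization p = (2 ^ k' * p ^ m').factorization p := by rw [h]
  have hz : ∀ j : ℕ, (2 ^ j).factorization p = 0 := by
    intro j
    rw [Nat.factorization_pow]
    simp only [Finsupp.smul_apply, smul_eq_mul, mul_eq_zero]
    right
    rw [Nat.Prime.factorization Nat.prime_two]
    simp [Finsupp.single_apply, Ne.symm hp2]
  rw [Nat.factorization_mul (by positivity) (pow_ne_zero _ hp.ne_zero),
    Nat.factorization_mul (by positivity) (pow_ne_zero _ hp.ne_zero)] at e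
  simp only [Finsupp.add_apply, hz, zero_add] at e
  rw [Nat.factorization_pow, Nat.factorization_pow] at e
  simpa [hp.factorization_self] using e

lemma none_of_four_le (m k p : ℕ) (hm : 4 ≤ m) (hp : p.Prime) (hp2 : p ≠ 2) :
    ¬ TwoNearPerfect (2 ^ k * p ^ m) := by
  intro h
  rcases forward k m p hp (by omega) h with h1 | ⟨h1, _⟩
  · have key : ∀ q k' : ℕ, q.Prime → q ≠ 2 → 2 ^ k * p ^ m ≠ 2 ^ k' * q ^ 2 := by
      intro q k' hq hq2 he
      have := (repr_unique hp hp2 hq hq2 (by omega) he).2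
      omega
    rcases h1 with h1 | h1 | h1
    · exact key 3 1 (by norm_num) (by norm_num) (by rw [h1]; norm_num)
    · exact key 3 2 (by norm_num) (by norm_num) (by rw [h1]; norm_num)
    · exact key 5 3 (by norm_num) (by norm_num) (by rw [h1]; norm_num)
  · omega

lemma three_iff (k p : ℕ) (hp : p.Prime) (hp2 : p ≠ 2) :
    TwoNearPerfect (2 ^ k * p ^ 3) ↔ p + 1 = 2 ^ (k + 1) := by
  constructor
  · intro h
    rcases forward k 3 p hp (by omega) h with h1 | ⟨_, h1⟩
    · have key : ∀ q k' : ℕ, q.Prime → q ≠ 2 → 2 ^ k * p ^ 3 ≠ 2 ^ k' * q ^ 2 := by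
        intro q k' hq hq2 he
        have := (repr_unique hp hp2 hq hq2 (by omega) he).2
        omega
      exfalso
      rcases h1 with h1 | h1 | h1
      · exact key 3 1 (by norm_num) (by norm_num) (by rw [h1]; norm_num)
      · exact key 3 2 (by norm_num) (by norm_num) (by rw [h1]; norm_num)
      · exact key 5 3 (by norm_num) (by norm_num) (by rw [h1]; norm_num)
    · exact h1
  · exact tnp_mersenne k p hp

theorem result :
    (∀ m k p : ℕ, 4 ≤ m → p.Prime → p ≠ 2 → ¬ TwoNearPerfect (2 ^ k * p ^ m)) ∧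
    (∀ k p : ℕ, p.Prime → p ≠ 2 →
      (TwoNearPerfect (2 ^ k * p ^ 3) ↔ p + 1 = 2 ^ (k + 1))) ∧
    ((∀ m : ℕ, 3 ≤ m → (B m).Finite) ↔ {q : ℕ | q.Prime ∧ ∃ j : ℕ, q = 2 ^ j - 1}.Finite) := by
  refine ⟨fun m k p hm hp hp2 => none_of_four_le m k p hm hp hp2,
    fun k p hp hp2 => three_iff k p hp hp2, ?_⟩
  have hA := Pool.Agent.Results.MP_d695ac_nt.MersenneClassification.result.2.2
  rw [← hA]
  constructor
  · intro h
    have h3 := h 3 le_rfl
    have hsub : A ⊆ {18, 36, 200} ∪ B 3 := by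
      rintro n ⟨hn, k, m, p, hp, hm, rfl⟩
      rcases forward k m p hp hm hn with h1 | ⟨rfl, h1⟩
      · left; simpa using h1
      · right
        refine ⟨hn, k, p, ?_, hp, ?_, rfl⟩
        · by_contra hk
          have hk0 : k = 0 := by omega
          subst hk0
          have := hp.two_le
          norm_num at h1
          omega
        · rintro rfl
          rw [pow_succ] at h1
          omega
    exact (Set.Finite.union (by simp) h3).subset hsub
  · intro h m hm
    refine h.subset ?_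
    rintro n ⟨hn, k, p, _, hp, _, rfl⟩
    exact ⟨hn, k, m, p, hp, by omega, rfl⟩

end Pool.Agent.Results.MP_24a6f7_nt.FixedExponent
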